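import Pool.Agent.helper77.Reg.Defs

open AlgebraicGeometry CategoryTheory CategoryTheory.Limits

namespace Helper77Reg

namespace LinMap

/-- `F` is injective and its cokernel has dimension at most one. -/
def AlmostOnto (F : LinMap) : Prop :=
  Function.Injective F.f ∧ ∃ v : F.B, ∀ y : F.B, ∃ (c : ℝ) (x : F.A), y = c • v + F.f x

theorem IsRetractOf.bijective {F G : LinMap} (h : F.IsRetractOf G) (hg : G.Bijective) :
    F.Bijective := by
  obtain ⟨a, a', b, b', h3, h4, h1, h2⟩ := h
  constructor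
  · intro x y hxy
    have : G.f (a x) = G.f (a y) := by rw [h3 x, h3 y, hxy]
    have := hg.1 this
    rw [← h1 x, ← h1 y, this]
  · intro y
    obtain ⟨z, hz⟩ := hg.2 (b y)
    exact ⟨a' z, by rw [h4 z, hz, h2]⟩

theorem IsRetractOf.almostOnto {F G : LinMap} (h : F.IsRetractOf G) (hg : G.AlmostOnto) :
    F.AlmostOnto := by
  obtain ⟨a, a', b, b', h3, h4, h1, h2⟩ := h
  obtain ⟨hi, v, hv⟩ := hg
  refine ⟨?_, b' v, ?_⟩
  · intro x y hxy
    have : G.f (a x) = G.f (a y) := by rw [h3 x, h3 y, hxy]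
    have := hi this
    rw [← h1 x, ← h1 y, this]
  · intro y
    obtain ⟨c, z, hz⟩ := hv (b y)
    refine ⟨c, a' z, ?_⟩
    rw [h4 z, ← map_smul, ← map_add, ← hz, h2]

theorem Iso.isRetractOf {F G : LinMap} (h : F.Iso G) : F.IsRetractOf G := by
  obtain ⟨u, v, h⟩ := h
  refine ⟨u, u.symm, v, v.symm, fun x => ?_, fun z => ?_, fun x => by simp, fun y => by simp⟩
  · exact (h x).symm
  · apply v.injective
    have := h (u.symm z)
    simpa using this

theorem Iso.symm {F G : LinMap} (h : F.Iso G) : G.Iso F := by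
  obtain ⟨u, v, h⟩ := h
  refine ⟨u.symm, v.symm, fun a => ?_⟩
  apply v.injective
  have := h (u.symm a)
  simpa using this.symm

theorem Iso.bijective_iff {F G : LinMap} (h : F.Iso G) : F.Bijective ↔ G.Bijective :=
  ⟨h.symm.isRetractOf.bijective, h.isRetractOf.bijective⟩

theorem Iso.almostOnto_iff {F G : LinMap} (h : F.Iso G) : F.AlmostOnto ↔ G.AlmostOnto :=
  ⟨h.symm.isRetractOf.almostOnto, h.isRetractOf.almostOnto⟩

theorem pi_apply {ι : Type} (F : ι → LinMap) (x : (pi F).A) (i : ι) :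
    (pi F).f x i = (F i).f (x i) := rfl

theorem prod_apply (F G : LinMap) (x : (prod F G).A) :
    (prod F G).f x = (F.f x.1, G.f x.2) := rfl

theorem bijective_pi {ι : Type} {F : ι → LinMap} (h : ∀ i, (F i).Bijective) :
    (pi F).Bijective := by
  constructor
  · intro x y hxy
    funext i
    exact (h i).1 (congrFun hxy i)
  · intro y
    choose x hx using fun i => (h i).2 (y i)
    exact ⟨x, funext hx⟩

theorem almostOnto_pi {ι : Type} [DecidableEq ι] {F : ι → LinMap} (k : ι)
    (hk : (F k).AlmostOnto) (h : ∀ i, i ≠ k → (F i).Bijective) : (pi F).AlmostOnto := by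
  obtain ⟨hki, w, hw⟩ := hk
  constructor
  · intro x y hxy
    funext i
    have h1 : (F i).f (x i) = (F i).f (y i) := congrFun hxy i
    by_cases hi : i = k
    · subst hi
      exact hki h1
    · exact (h i hi).1 h1
  · refine ⟨(Pi.single k w : ∀ i, (F i).B), fun y => ?_⟩
    obtain ⟨c, x0, hx0⟩ := hw (y k)
    have hex : ∀ i, ∃ x : (F i).A, y i = c • (Pi.single k w : ∀ i, (F i).B) i + (F i).f x := by
      intro i
      by_cases hi : i = k
      · subst hi
        exact ⟨x0, by simpa using hx0⟩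
      · obtain ⟨x, hx⟩ := (h i hi).2 (y i)
        refine ⟨x, ?_⟩
        rw [Pi.single_eq_of_ne hi]
        simp [hx]
    choose x hx using hex
    exact ⟨c, x, funext hx⟩

theorem bijective_prod {F G : LinMap} (hF : F.Bijective) (hG : G.Bijective) :
    (prod F G).Bijective := by
  constructor
  · intro x y hxy
    exact Prod.ext (hF.1 (congrArg Prod.fst hxy)) (hG.1 (congrArg Prod.snd hxy))
  · rintro ⟨y1, y2⟩
    obtain ⟨x1, h1⟩ := hF.2 y1
    obtain ⟨x2, h2⟩ := hG.2 y2
    exact ⟨(x1, x2), Prod.ext h1 h2⟩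

theorem almostOnto_prod {F G : LinMap} (hF : F.AlmostOnto) (hG : G.Bijective) :
    (prod F G).AlmostOnto := by
  obtain ⟨hFi, w, hw⟩ := hF
  constructor
  · intro x y hxy
    exact Prod.ext (hFi (congrArg Prod.fst hxy)) (hG.1 (congrArg Prod.snd hxy))
  · refine ⟨((w, 0) : F.B × G.B), ?_⟩
    rintro ⟨y1, y2⟩
    obtain ⟨c, x1, h1⟩ := hw y1
    obtain ⟨x2, h2⟩ := hG.2 y2
    refine ⟨c, ((x1, x2) : F.A × G.A), ?_⟩
    show ((y1, y2) : F.B × G.B) = c • ((w, 0) : F.B × G.B) + (F.f x1, G.f x2)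
    rw [h1, h2]
    simp

/-- An injective map with cokernel of dimension at most one which is not onto fits into a short
exact sequence with quotient the real numbers. -/
theorem AlmostOnto.cokernelReal {F : LinMap} (h : F.AlmostOnto) (hs : ¬ F.Onto) :
    F.CokernelReal := by
  obtain ⟨hi, v, hv⟩ := h
  have hvn : v ∉ LinearMap.range F.f := by
    intro hvr
    apply hs
    intro y
    obtain ⟨c, x, hx⟩ := hv y
    obtain ⟨x0, hx0⟩ := hvr
    exact ⟨c • x0 + x, by rw [map_add, map_smul, hx0, hx]⟩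
  obtain ⟨τ, hτ, hτr⟩ := Submodule.exists_le_ker_of_notMem hvn
  have hker : ∀ y, τ y = 0 → y ∈ LinearMap.range F.f := by
    intro y hy
    obtain ⟨c, x, hx⟩ := hv y
    have h0 : τ (F.f x) = 0 := hτr ⟨x, rfl⟩
    rw [hx, map_add, map_smul, h0, add_zero, smul_eq_mul] at hy
    have hc : c = 0 := (mul_eq_zero.1 hy).resolve_right hτ
    rw [hx, hc, zero_smul, zero_add]
    exact ⟨x, rfl⟩
  refine ⟨τ, hi, ?_, ?_⟩
  · intro y
    constructor
    · intro hy
      exact hker y hy
    · rintro ⟨x, rfl⟩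
      exact hτr ⟨x, rfl⟩
  · intro r
    exact ⟨(r / τ v) • v, by rw [map_smul, smul_eq_mul, div_mul_cancel₀ _ hτ]⟩

theorem CokernelReal.almostOnto {F : LinMap} (h : F.CokernelReal) : F.AlmostOnto := by
  obtain ⟨τ, hi, hτ, hs⟩ := h
  obtain ⟨w, hw⟩ := hs 1
  refine ⟨hi, w, fun y => ?_⟩
  obtain ⟨x, hx⟩ := (hτ (y - τ y • w)).1 (by rw [map_sub, map_smul, hw]; simp)
  exact ⟨τ y, x, by rw [hx]; simp⟩

theorem Bijective.almostOnto {F : LinMap} (h : F.Bijective) : F.AlmostOnto :=
  ⟨h.1, 0, fun y => by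
    obtain ⟨x, hx⟩ := h.2 y
    exact ⟨0, x, by simp [hx]⟩⟩

end LinMap

/-- All the assertions that are carried along in the induction. -/
def Good (R : RegulatorData) (X : Scheme.{0}) (d : ℕ) : Prop :=
  (∀ p q : ℤ, p < 2 * q → (d : ℤ) < q → (R.reg X p q).Bijective) ∧
    (∀ p : ℤ, p < 2 * d - 1 → (R.reg X p d).Bijective) ∧ (R.reg X (2 * d - 1) d).AlmostOnto

theorem Generated.isArithmetic {S : Scheme.{0} → ℕ → Prop} {X : Scheme.{0}} {d : ℕ}
    (h : Generated S X d) : IsArithmetic X d := by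
  cases h <;> assumption

theorem reg_congr (R : RegulatorData) (X : Scheme.{0}) {p p' q q' : ℤ} (hp : p = p')
    (hq : q = q') : R.reg X p q = R.reg X p' q' := by
  rw [hp, hq]

theorem good_bundle (R : RegulatorData) (hR : IsRegulatorTheory R) {P Z : Scheme.{0}} {e n : ℕ}
    (π : P ⟶ Z) (hZ : IsArithmetic Z e) (hP : IsArithmetic P (e + n))
    (hπ : IsProjectiveBundle n π) (ih : Good R Z e) : Good R P (e + n) := by
  obtain ⟨ih1, ih2, ih3⟩ := ih
  refine ⟨fun p q hpq hq => ?_, fun p hp => ?_, ?_⟩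
  · refine (hR.bundle π hZ hP hπ p q).bijective_iff.2 (LinMap.bijective_pi fun j => ?_)
    have := j.2
    refine ih1 _ _ (by omega) ?_
    push_cast at hq
    omega
  · refine (hR.bundle π hZ hP hπ p _).bijective_iff.2 (LinMap.bijective_pi fun j => ?_)
    have hj := j.2
    by_cases hjn : (j : ℕ) = n
    · rw [RegulatorData.shift, reg_congr R Z (p' := p - 2 * n) (q' := e) (by rw [hjn])
        (by rw [hjn]; push_cast; ring)]
      exact ih2 _ (by push_cast at hp; omega)
    · exact ih1 _ _ (by push_cast at hp ⊢; omega) (by push_cast; omega)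
  · refine (hR.bundle π hZ hP hπ _ _).almostOnto_iff.2
      (LinMap.almostOnto_pi (Fin.last n) ?_ fun j hj => ?_)
    · rw [RegulatorData.shift, reg_congr R Z (p' := 2 * e - 1) (q' := e) (by simp; ring) (by simp)]
      exact ih3
    · have hjn : (j : ℕ) ≠ n := fun h => hj (Fin.ext h)
      have := j.2
      exact ih1 _ _ (by push_cast; omega) (by push_cast; omega)

theorem good_blowup (R : RegulatorData) (hR : IsRegulatorTheory R) {Z X X' : Scheme.{0}}
    {e c : ℕ} (i : Z ⟶ X) (b : X' ⟶ X) (hZ : IsArithmetic Z e)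
    (hX : IsArithmetic X (e + c + 1)) (hX' : IsArithmetic X' (e + c + 1)) (hb : IsBlowup i b)
    (ihZ : Good R Z e) (ihX : Good R X (e + c + 1)) : Good R X' (e + c + 1) := by
  obtain ⟨ihZ1, -, -⟩ := ihZ
  obtain ⟨ihX1, ihX2, ihX3⟩ := ihX
  have key : ∀ p q : ℤ, p < 2 * q → ((e + c + 1 : ℕ) : ℤ) ≤ q →
      (LinMap.pi fun j : Fin c => R.shift Z p q (j + 1)).Bijective := by
    intro p q hpq hq
    refine LinMap.bijective_pi fun j => ?_
    have := j.2
    push_cast at hq
    exact ihZ1 _ _ (by push_cast; omega) (by push_cast; omega)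
  refine ⟨fun p q hpq hq => ?_, fun p hp => ?_, ?_⟩
  · exact (hR.blowup i b hZ hX hX' hb p q).bijective_iff.2
      (LinMap.bijective_prod (ihX1 p q hpq hq) (key p q hpq hq.le))
  · exact (hR.blowup i b hZ hX hX' hb p _).bijective_iff.2
      (LinMap.bijective_prod (ihX2 p hp) (key p _ (by omega) le_rfl))
  · exact (hR.blowup i b hZ hX hX' hb _ _).almostOnto_iff.2
      (LinMap.almostOnto_prod ihX3 (key _ _ (by omega) le_rfl))

theorem good_of_generated (R : RegulatorData) (hR : IsRegulatorTheory R)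
    {S : Scheme.{0} → ℕ → Prop} (hS : ∀ Z e, S Z e → IsArithmetic Z e → Good R Z e)
    {X : Scheme.{0}} {d : ℕ} (h : Generated S X d) : Good R X d := by
  induction h with
  | base hZ he => exact hS _ _ hZ he
  | bundle π hZ hP hπ ih => exact good_bundle R hR π hZ.isArithmetic hP hπ ih
  | blowup i b hZ hX hX' hb ihZ ihX =>
    exact good_blowup R hR i b hZ.isArithmetic hX.isArithmetic hX' hb ihZ ihX
  | @image X X' d g hX' hX hg ih =>
    obtain ⟨ih1, ih2, ih3⟩ := ih
    exact ⟨fun p q hpq hq => (hR.degree g hX hX'.isArithmetic hg p q).bijective (ih1 p q hpq hq),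
      fun p hp => (hR.degree g hX hX'.isArithmetic hg p d).bijective (ih2 p hp),
      (hR.degree g hX hX'.isArithmetic hg (2 * d - 1) d).almostOnto ih3⟩

theorem good_of_strong (R : RegulatorData) {X : Scheme.{0}} {d : ℕ}
    (h : StrongQuestion R X d) : Good R X d := by
  obtain ⟨h1, h2, h3⟩ := h
  refine ⟨fun p q hpq hq => h1 p q hq hpq, fun p hp => ?_, ?_⟩
  · by_cases hf : IsFlat X
    · rw [reg_congr R X (p := p) (p' := 2 * d - 1 - (2 * d - 1 - p)) (by ring) rfl]
      exact (h2 hf).1 (2 * d - 1 - p) (by omega)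
    · exact h3 hf p (by omega)
  · by_cases hf : IsFlat X
    · exact (h2 hf).2.almostOnto
    · exact (h3 hf (2 * d - 1) (by omega)).almostOnto

theorem strong_of_good (R : RegulatorData) (hR : IsRegulatorTheory R) {X : Scheme.{0}} {d : ℕ}
    (hX : IsArithmetic X d) (h : Good R X d) : StrongQuestion R X d := by
  obtain ⟨h1, h2, h3⟩ := h
  refine ⟨fun p q hq hpq => h1 p q hpq hq, fun hf => ?_, fun hf p hp => ?_⟩
  · exact ⟨fun i hi => h2 _ (by omega), h3.cokernelReal (hR.productFormula hX hf)⟩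
  · by_cases hp' : p = 2 * d - 1
    · subst hp'
      have := hR.vertical hX hf (2 * d - 1) d
      exact ⟨h3.1, fun y => ⟨0, Subsingleton.elim _ _⟩⟩
    · exact h2 p (by omega)

theorem strong_of_generated (R : RegulatorData) (hR : IsRegulatorTheory R)
    (S : Scheme.{0} → ℕ → Prop) (hS : ∀ Z e, S Z e → StrongQuestion R Z e)
    {X : Scheme.{0}} {d : ℕ} (h : Generated S X d) : StrongQuestion R X d :=
  strong_of_good R hR h.isArithmetic
    (good_of_generated R hR (fun Z e hZ _ => good_of_strong R (hS Z e hZ)) h)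

end Helper77Reg
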