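import Pool.Agent.helper77.Reg.Main

open AlgebraicGeometry CategoryTheory CategoryTheory.Limits

namespace Helper77Reg

namespace LinMap

theorem parts_injective {ι : Type} [DecidableEq ι] {G : LinMap} {F : ι → LinMap}
    (h : Function.Injective (prod G (pi F)).f) :
    Function.Injective G.f ∧ ∀ i, Function.Injective (F i).f := by
  constructor
  · intro x y hxy
    have h1 : (prod G (pi F)).f ((x, 0) : G.A × ∀ i, (F i).A) =
        (prod G (pi F)).f ((y, 0) : G.A × ∀ i, (F i).A) := Prod.ext hxy rfl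
    exact congrArg Prod.fst (h h1)
  · intro i x y hxy
    have h1 : (prod G (pi F)).f ((0, Pi.single i x) : G.A × ∀ i, (F i).A) =
        (prod G (pi F)).f ((0, Pi.single i y) : G.A × ∀ i, (F i).A) := by
      refine Prod.ext rfl (funext fun k => ?_)
      show (F k).f ((Pi.single i x : ∀ i, (F i).A) k) = (F k).f ((Pi.single i y : ∀ i, (F i).A) k)
      by_cases hk : k = i
      · subst hk
        simpa using hxy
      · rw [Pi.single_eq_of_ne hk, Pi.single_eq_of_ne hk]
    have h3 := congrFun (congrArg Prod.snd (h h1)) i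
    simpa using h3

theorem parts_bijective {ι : Type} [DecidableEq ι] {G : LinMap} {F : ι → LinMap}
    (h : (prod G (pi F)).Bijective) : G.Bijective ∧ ∀ i, (F i).Bijective := by
  obtain ⟨hi1, hi2⟩ := parts_injective h.1
  refine ⟨⟨hi1, fun y => ?_⟩, fun i => ⟨hi2 i, fun y => ?_⟩⟩
  · obtain ⟨a, ha⟩ := h.2 ((y, 0) : G.B × ∀ i, (F i).B)
    exact ⟨a.1, congrArg Prod.fst ha⟩
  · obtain ⟨a, ha⟩ := h.2 ((0, Pi.single i y) : G.B × ∀ i, (F i).B)
    refine ⟨a.2 i, ?_⟩
    have h3 : (F i).f (a.2 i) = (Pi.single i y : ∀ i, (F i).B) i :=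
      congrFun (congrArg Prod.snd ha) i
    rw [h3, Pi.single_eq_same]

theorem parts_almostOnto {ι : Type} [DecidableEq ι] {G : LinMap} {F : ι → LinMap}
    (h : (prod G (pi F)).AlmostOnto) (hns : ¬ G.Onto) :
    G.AlmostOnto ∧ ∀ i, (F i).Bijective := by
  obtain ⟨hinj, w, hw⟩ := h
  obtain ⟨hi1, hi2⟩ := parts_injective hinj
  obtain ⟨y1, hy1⟩ : ∃ y1, ∀ x, G.f x ≠ y1 := by
    by_contra hcon
    push Not at hcon
    exact hns hcon
  obtain ⟨c1, a1, h1⟩ := hw ((y1, 0) : G.B × ∀ i, (F i).B)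
  have h1a : y1 = c1 • w.1 + G.f a1.1 := congrArg Prod.fst h1
  have h1b : ∀ i, (0 : (F i).B) = c1 • w.2 i + (F i).f (a1.2 i) :=
    fun i => congrFun (congrArg Prod.snd h1) i
  have hc1 : c1 ≠ 0 := by
    intro h0
    apply hy1 a1.1
    rw [h1a, h0, zero_smul, zero_add]
  have hw2 : ∀ i, ∃ x, (F i).f x = w.2 i := by
    intro i
    refine ⟨-(c1⁻¹ • a1.2 i), ?_⟩
    have := h1b i
    rw [map_neg, map_smul]
    have h2 : (F i).f (a1.2 i) = -(c1 • w.2 i) := eq_neg_of_add_eq_zero_right this.symm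
    rw [h2, smul_neg, neg_neg, smul_smul, inv_mul_cancel₀ hc1, one_smul]
  refine ⟨⟨hi1, w.1, fun y => ?_⟩, fun i => ⟨hi2 i, fun z => ?_⟩⟩
  · obtain ⟨c, a, ha⟩ := hw ((y, 0) : G.B × ∀ i, (F i).B)
    exact ⟨c, a.1, congrArg Prod.fst ha⟩
  · obtain ⟨c, a, ha⟩ := hw ((0, Pi.single i z) : G.B × ∀ i, (F i).B)
    have ha2 : z = c • w.2 i + (F i).f (a.2 i) := by
      have h3 : (Pi.single i z : ∀ i, (F i).B) i = c • w.2 i + (F i).f (a.2 i) :=
        congrFun (congrArg Prod.snd ha) i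
      rw [← h3, Pi.single_eq_same]
    obtain ⟨x, hx⟩ := hw2 i
    exact ⟨c • x + a.2 i, by rw [map_add, map_smul, hx, ha2]⟩

theorem not_onto_prod {G H : LinMap} (h : ¬ G.Onto) : ¬ (prod G H).Onto := by
  intro hs
  apply h
  intro y
  obtain ⟨a, ha⟩ := hs ((y, 0) : G.B × H.B)
  exact ⟨a.1, congrArg Prod.fst ha⟩

theorem Iso.onto {F G : LinMap} (h : F.Iso G) (hF : F.Onto) : G.Onto := by
  obtain ⟨u, v, h⟩ := h
  intro y
  obtain ⟨x, hx⟩ := hF (v.symm y)
  exact ⟨u x, by rw [← h, hx, v.apply_symm_apply]⟩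

end LinMap

theorem blowup_criterion (R : RegulatorData) (hR : IsRegulatorTheory R) {Z X X' : Scheme.{0}}
    {e c : ℕ} (i : Z ⟶ X) (b : X' ⟶ X) (hZ : IsArithmetic Z e) (hX : IsArithmetic X (e + c + 1))
    (hX' : IsArithmetic X' (e + c + 1)) (hb : IsBlowup i b) (hflat : IsFlat X) :
    Question R X' (e + c + 1) ↔
      (Question R X (e + c + 1) ∧ BijectiveBetween R Z e (e + c + 1)) := by
  have hns := hR.productFormula hX hflat
  constructor
  · rintro ⟨h1, h2⟩
    obtain ⟨hA, hB⟩ := LinMap.parts_almostOnto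
      ((hR.blowup i b hZ hX hX' hb _ _).almostOnto_iff.1 h2.almostOnto) hns
    refine ⟨⟨fun k hk => ?_, hA.cokernelReal hns⟩, fun p q hq1 hq2 hpq => ?_⟩
    · exact (LinMap.parts_bijective
        ((hR.blowup i b hZ hX hX' hb _ _).bijective_iff.1 (h1 k hk))).1
    · obtain ⟨j, hj⟩ : ∃ j : ℕ, (e : ℤ) + c + 1 - q = j + 1 :=
        ⟨(e + c - q).toNat, by push_cast at hq2; omega⟩
      have hjc : j < c := by omega
      by_cases hp : p = 2 * q - 1
      · have := hB ⟨j, hjc⟩
        rw [RegulatorData.shift, reg_congr R Z (p' := p) (q' := q)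
          (by push_cast; omega) (by push_cast; omega)] at this
        exact this
      · have := (LinMap.parts_bijective ((hR.blowup i b hZ hX hX' hb _ _).bijective_iff.1
          (h1 (2 * q - 1 - p) (by omega)))).2 ⟨j, hjc⟩
        rw [RegulatorData.shift, reg_congr R Z (p' := p) (q' := q)
          (by push_cast; omega) (by push_cast; omega)] at this
        exact this
  · rintro ⟨⟨h1, h2⟩, hZb⟩
    have key : ∀ p : ℤ, p < 2 * ((e + c + 1 : ℕ) : ℤ) →
        (LinMap.pi fun j : Fin c => R.shift Z p ((e + c + 1 : ℕ) : ℤ) (j + 1)).Bijective := by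
      intro p hp
      refine LinMap.bijective_pi fun j => ?_
      have := j.2
      exact hZb _ _ (by push_cast; omega) (by push_cast; omega) (by push_cast at hp ⊢; omega)
    refine ⟨fun k hk => ?_, ?_⟩
    · exact (hR.blowup i b hZ hX hX' hb _ _).bijective_iff.2
        (LinMap.bijective_prod (h1 k hk) (key _ (by omega)))
    · refine LinMap.AlmostOnto.cokernelReal ((hR.blowup i b hZ hX hX' hb _ _).almostOnto_iff.2
        (LinMap.almostOnto_prod h2.almostOnto (key _ (by omega)))) fun hs => ?_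
      exact LinMap.not_onto_prod hns ((hR.blowup i b hZ hX hX' hb _ _).onto hs)

theorem vertical_iff (R : RegulatorData) (hR : IsRegulatorTheory R) {Z : Scheme.{0}} {e : ℕ}
    (hZ : IsArithmetic Z e) (hv : ¬ IsFlat Z) (d : ℕ) :
    BijectiveBetween R Z e d ↔ VanishesBetween R Z e d := by
  constructor
  · intro h p q h1 h2 h3
    have hD := hR.vertical hZ hv p q
    exact (h p q h1 h2 h3).1.subsingleton
  · intro h p q h1 h2 h3
    have hD := hR.vertical hZ hv p q
    have hM := h p q h1 h2 h3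
    exact ⟨fun x y _ => Subsingleton.elim x y, fun y => ⟨0, Subsingleton.elim _ _⟩⟩

end Helper77Reg
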