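import Mathlib

/-!
# Regulator theories on regular schemes proper over the integers

Definitions for the problem on the regulator from the motivic cohomology of a regular
arithmetic scheme.
-/

open AlgebraicGeometry CategoryTheory CategoryTheory.Limits

namespace Helper77Reg

/-! ### Schemes -/

/-- The unique morphism from a scheme to the spectrum of the integers. -/
noncomputable def toZ (X : Scheme.{0}) : X ⟶ Spec (CommRingCat.of ℤ) :=
  specZIsTerminal.from X

/-- `X` is a connected regular scheme of Krull dimension `d`, proper over the integers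
(flat or of positive characteristic). -/
structure IsArithmetic (X : Scheme.{0}) (d : ℕ) : Prop where
  connected : ConnectedSpace X
  regular : ∀ x : X, IsRegularLocalRing (X.presheaf.stalk x)
  proper : IsProper (toZ X)
  dim : topologicalKrullDim X = (d : WithBot ℕ∞)

/-- `X` is flat over the integers. -/
def IsFlat (X : Scheme.{0}) : Prop := Flat (toZ X)

/-- The ideal `I` is generated by one nonzerodivisor. -/
def IsRegularPrincipal {A : Type} [CommRing A] (I : Ideal A) : Prop :=
  ∃ f ∈ nonZeroDivisors A, I = Ideal.span {f}

/-- The closed immersion `i : Z ⟶ X` is an effective Cartier divisor: locally on `X` its ideal is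
generated by one nonzerodivisor. -/
def IsCartier {Z X : Scheme.{0}} (i : Z ⟶ X) : Prop :=
  IsClosedImmersion i ∧ ∀ x : X, ∃ U : X.affineOpens, x ∈ U.1 ∧
    IsRegularPrincipal ((Scheme.Hom.ker i).ideal U)

/-- `b : X' ⟶ X` is the blow-up of `X` along the closed subscheme `i : Z ⟶ X` (universal
property). -/
structure IsBlowup {Z X X' : Scheme.{0}} (i : Z ⟶ X) (b : X' ⟶ X) : Prop where
  closed : IsClosedImmersion i
  cartier : IsCartier (pullback.snd i b)
  universal : ∀ {T : Scheme.{0}} (f : T ⟶ X), IsCartier (pullback.snd i f) →
    ∃! g : T ⟶ X', g ≫ b = f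

/-- Projective `n`-space over the integers. -/
noncomputable def projSpace (n : ℕ) : Scheme.{0} :=
  letI := MvPolynomial.gradedAlgebra (σ := Fin (n + 1)) (R := ℤ)
  Proj (MvPolynomial.homogeneousSubmodule (Fin (n + 1)) ℤ)

/-- `π : P ⟶ Z` is a projective bundle with fibres of dimension `n`: over the members of an open
cover of `Z` it is isomorphic to the projection from the product with projective `n`-space. -/
def IsProjectiveBundle (n : ℕ) {P Z : Scheme.{0}} (π : P ⟶ Z) : Prop :=
  ∀ z : Z, ∃ U : Z.Opens, z ∈ U ∧
    ∃ e : ((π ⁻¹ᵁ U : P.Opens) : Scheme.{0}) ≅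
        pullback (toZ (projSpace n)) (toZ (U : Scheme.{0})),
      e.hom ≫ pullback.snd _ _ = π ∣_ U

/-! ### Linear maps of real vector spaces as objects -/

/-- A linear map between real vector spaces. -/
structure LinMap where
  /-- the source -/
  A : ModuleCat.{0} ℝ
  /-- the target -/
  B : ModuleCat.{0} ℝ
  /-- the map -/
  f : A →ₗ[ℝ] B

namespace LinMap

/-- The linear maps `F` and `G` are isomorphic (by isomorphisms of the sources and of the
targets). -/
def Iso (F G : LinMap) : Prop :=
  ∃ (u : F.A ≃ₗ[ℝ] G.A) (v : F.B ≃ₗ[ℝ] G.B), ∀ a, v (F.f a) = G.f (u a)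

/-- The direct sum of a finite family of linear maps. -/
def pi {ι : Type} (F : ι → LinMap) : LinMap where
  A := ModuleCat.of ℝ (∀ i, (F i).A)
  B := ModuleCat.of ℝ (∀ i, (F i).B)
  f := LinearMap.pi fun i => (F i).f ∘ₗ LinearMap.proj i

/-- The direct sum of two linear maps. -/
def prod (F G : LinMap) : LinMap where
  A := ModuleCat.of ℝ (F.A × G.A)
  B := ModuleCat.of ℝ (F.B × G.B)
  f := LinearMap.prodMap F.f G.f

/-- The pair `(a, b)` is a morphism from the linear map `F` to the linear map `G`. -/
def IsHom (F G : LinMap) (a : F.A →ₗ[ℝ] G.A) (b : F.B →ₗ[ℝ] G.B) : Prop :=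
  ∀ x, G.f (a x) = b (F.f x)

/-- `F` is a retract of `G`. -/
def IsRetractOf (F G : LinMap) : Prop :=
  ∃ a a' b b', F.IsHom G a b ∧ G.IsHom F a' b' ∧ (∀ x, a' (a x) = x) ∧ (∀ y, b' (b y) = y)

/-- `F` is bijective. -/
def Bijective (F : LinMap) : Prop := Function.Bijective F.f

/-- `F` is surjective. -/
def Onto (F : LinMap) : Prop := Function.Surjective F.f

/-- `F` is the first map of a short exact sequence `0 ⟶ A ⟶ B ⟶ ℝ ⟶ 0`. -/
def CokernelReal (F : LinMap) : Prop :=
  ∃ τ : F.B →ₗ[ℝ] ℝ, Function.Injective F.f ∧ Function.Exact F.f τ ∧ Function.Surjective τ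

end LinMap

/-! ### Regulator theories -/

/-- The data of a regulator: for a scheme `X`, a degree `p` and a weight `q` a linear map from a
real vector space (rational motivic cohomology of `X` in degree `p` and weight `q`, tensored with
the reals) to a real vector space (real Deligne cohomology of the generic fibre of `X`);
for the actual theory it is restriction to the generic fibre followed by the regulator. -/
structure RegulatorData where
  /-- the regulator -/
  reg : Scheme.{0} → ℤ → ℤ → LinMap

/-- The regulator of `Z` in degree `p - 2 * k` and weight `q - k`. -/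
def RegulatorData.shift (R : RegulatorData) (Z : Scheme.{0}) (p q : ℤ) (k : ℕ) : LinMap :=
  R.reg Z (p - 2 * k) (q - k)

/-- Projective bundle formula: for a projective bundle `P ⟶ Z` with fibres of dimension `n` the
regulator of `P` in degree `p` and weight `q` is the direct sum of the regulators of `Z` in degree
`p - 2j` and weight `q - j`, `0 ≤ j ≤ n`. -/
def BundleFormula (R : RegulatorData) : Prop :=
  ∀ {P Z : Scheme.{0}} {e n : ℕ} (π : P ⟶ Z), IsArithmetic Z e →
    IsArithmetic P (e + n) → IsProjectiveBundle n π → ∀ p q : ℤ,
    (R.reg P p q).Iso (LinMap.pi fun j : Fin (n + 1) => R.shift Z p q j)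

/-- Blow-up formula: for the blow-up `X'` of `X` along a regular centre `Z` of codimension `c + 1`
the regulator of `X'` in degree `p` and weight `q` is the direct sum of the regulator of `X` in
degree `p` and weight `q` and of the regulators of `Z` in degree `p - 2j` and weight `q - j`,
`1 ≤ j ≤ c`. -/
def BlowupFormula (R : RegulatorData) : Prop :=
  ∀ {Z X X' : Scheme.{0}} {e c : ℕ} (i : Z ⟶ X) (b : X' ⟶ X), IsArithmetic Z e →
    IsArithmetic X (e + c + 1) → IsArithmetic X' (e + c + 1) → IsBlowup i b → ∀ p q : ℤ,
    (R.reg X' p q).Iso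
      ((R.reg X p q).prod (LinMap.pi fun j : Fin c => R.shift Z p q (j + 1)))

/-- Degree formula: pull-back along a surjective morphism between arithmetic schemes of the same
dimension has a left inverse, and both are compatible with the regulators. -/
def DegreeFormula (R : RegulatorData) : Prop :=
  ∀ {X X' : Scheme.{0}} {d : ℕ} (g : X' ⟶ X), IsArithmetic X d → IsArithmetic X' d →
    Surjective g → ∀ p q : ℤ, (R.reg X p q).IsRetractOf (R.reg X' p q)

/-- The Deligne cohomology of the generic fibre vanishes if the generic fibre is empty. -/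
def VerticalVanishing (R : RegulatorData) : Prop :=
  ∀ {Z : Scheme.{0}} {e : ℕ}, IsArithmetic Z e → ¬ IsFlat Z →
    ∀ p q : ℤ, Subsingleton (R.reg Z p q).B

/-- Consequence of the product formula: for flat `X` of dimension `d` the regulator in degree
`2d-1` and weight `d` is not onto. -/
def ProductFormula (R : RegulatorData) : Prop :=
  ∀ {X : Scheme.{0}} {d : ℕ}, IsArithmetic X d → IsFlat X → ¬ (R.reg X (2 * d - 1) d).Onto

/-- The formal properties of the regulator. -/
structure IsRegulatorTheory (R : RegulatorData) : Prop where
  bundle : BundleFormula R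
  blowup : BlowupFormula R
  degree : DegreeFormula R
  vertical : VerticalVanishing R
  productFormula : ProductFormula R

/-- Question Q1 of the problem for the scheme `X` of dimension `d`: the maps
`r_i : M^(2d-1-i) ⟶ D^(2d-1-i)` in weight `d` are bijective for `i ≥ 1`, and there is a short exact
sequence `0 ⟶ M^(2d-1) ⟶ D^(2d-1) ⟶ CH^0(X)^* ⟶ 0`, where `CH^0(X)^* = ℝ` as `X` is integral. -/
def Question (R : RegulatorData) (X : Scheme.{0}) (d : ℕ) : Prop :=
  (∀ i : ℤ, 1 ≤ i → (R.reg X (2 * d - 1 - i) d).Bijective) ∧
    (R.reg X (2 * d - 1) d).CokernelReal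

/-- The regulator of `Z` is bijective in degree `p` and weight `q` for all `p < 2q`, `e < q < d`. -/
def BijectiveBetween (R : RegulatorData) (Z : Scheme.{0}) (e d : ℕ) : Prop :=
  ∀ p q : ℤ, (e : ℤ) < q → q < d → p < 2 * q → (R.reg Z p q).Bijective

/-- The motivic cohomology of `Z` vanishes in degree `p` and weight `q` for all `p < 2q`,
`e < q < d`. -/
def VanishesBetween (R : RegulatorData) (Z : Scheme.{0}) (e d : ℕ) : Prop :=
  ∀ p q : ℤ, (e : ℤ) < q → q < d → p < 2 * q → Subsingleton (R.reg Z p q).A

/-- The strong form of Q1 for a connected regular scheme `X` of dimension `d`, proper over the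
integers: the regulator is bijective in all weights larger than `d`; if `X` is flat over the
integers, Q1 holds for `X`; if `X` is not flat over the integers (so that its generic fibre is
empty), the regulator is bijective in weight `d` and degrees smaller than `2d` too. -/
def StrongQuestion (R : RegulatorData) (X : Scheme.{0}) (d : ℕ) : Prop :=
  (∀ p q : ℤ, (d : ℤ) < q → p < 2 * q → (R.reg X p q).Bijective) ∧
    (IsFlat X → Question R X d) ∧
      (¬ IsFlat X → ∀ p : ℤ, p < 2 * d → (R.reg X p d).Bijective)

/-- The least class of pairs (arithmetic scheme, its dimension) that contains the given class `S`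
and is closed under projective bundles, blow-ups along members of the class, and images of the same
dimension. -/
inductive Generated (S : Scheme.{0} → ℕ → Prop) : Scheme.{0} → ℕ → Prop
  | base {Z : Scheme.{0}} {e : ℕ} : S Z e → IsArithmetic Z e → Generated S Z e
  | bundle {P Z : Scheme.{0}} {e n : ℕ} (π : P ⟶ Z) : Generated S Z e → IsArithmetic P (e + n) →
      IsProjectiveBundle n π → Generated S P (e + n)
  | blowup {Z X X' : Scheme.{0}} {e c : ℕ} (i : Z ⟶ X) (b : X' ⟶ X) : Generated S Z e →
      Generated S X (e + c + 1) → IsArithmetic X' (e + c + 1) → IsBlowup i b →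
      Generated S X' (e + c + 1)
  | image {X X' : Scheme.{0}} {d : ℕ} (g : X' ⟶ X) : Generated S X' d → IsArithmetic X d →
      Surjective g → Generated S X d

end Helper77Reg
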